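import Pool.Agent.MVO.StmtsL

set_option autoImplicit false

namespace Pool.Agent.MVO.H52

open Pool.Agent.Helper14_MV Pool.Agent.Helper2_MV Pool.Agent.MVO

theorem fle_of_le {ρ σ : FIC} (h : ρ ≤ σ) : FLe (FC.ofFIC ρ) (FC.ofFIC σ) :=
  fun _ _ _ hr => h _ _ hr

theorem olw (lwa : LwaStmt) (lwb : LwbStmt) (lwc : LwcStmt) (lwd : LwdStmt) : OlwStmt := by
  intro β hO ρ σ τ h1 h2 h3 h4 _ _ k a a' hd hd' ht hch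
  have hU : β ≤ FIC.sup ρ (FIC.inf σ τ) := FIC.le_trans' h1 (FIC.le_sup_left _ _)
  have hRT : FLe (FC.ofFIC ρ) (FC.ofFIC τ) := fle_of_le h4
  have hRU : FLe (FC.ofFIC ρ) (FC.ofFIC (FIC.sup ρ (FIC.inf σ τ))) :=
    fle_of_le (FIC.le_sup_left _ _)
  have hI : ∀ k a b, (FC.ofFIC σ).R k a b → (FC.ofFIC τ).R k a b →
      (FC.ofFIC (FIC.sup ρ (FIC.inf σ τ))).R k a b := by
    intro k a b hs ht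
    exact FIC.le_sup_right ρ (FIC.inf σ τ) _ _ ⟨hs, ht⟩
  have hch' : Relation.ReflTransGen (Stp (FC.ofFIC ρ) (FC.ofFIC σ) k) a a' := hch
  rcases hO with hO | hO | hO | hO
  · exact lwa (FC.ofFIC ρ) (FC.ofFIC σ) (FC.ofFIC τ) (FC.ofFIC (FIC.sup ρ (FIC.inf σ τ))) hRT hRU hI k a a'
      (Or.inl ⟨h1 _ _ hO, h2 _ _ hO, h3 _ _ hO, hU _ _ hO⟩) hd hd' ht hch'
  · exact lwb (FC.ofFIC ρ) (FC.ofFIC σ) (FC.ofFIC τ) (FC.ofFIC (FIC.sup ρ (FIC.inf σ τ))) (h1 _ _ hO) (h2 _ _ hO) (h3 _ _ hO)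
      (hU _ _ hO) hRT hRU hI k a a' hd hd' ht hch'
  · exact lwc (FC.ofFIC ρ) (FC.ofFIC σ) (FC.ofFIC τ) (FC.ofFIC (FIC.sup ρ (FIC.inf σ τ))) (h1 _ _ hO) (h2 _ _ hO) (h3 _ _ hO)
      (hU _ _ hO) hRT hRU hI k a a' hd hd' ht hch'
  · exact lwd (FC.ofFIC ρ) (FC.ofFIC σ) (FC.ofFIC τ) (FC.ofFIC (FIC.sup ρ (FIC.inf σ τ))) ⟨h1 _ _ hO.1, h1 _ _ hO.2⟩
      ⟨h2 _ _ hO.1, h2 _ _ hO.2⟩ ⟨h3 _ _ hO.1, h3 _ _ hO.2⟩ ⟨hU _ _ hO.1, hU _ _ hO.2⟩ hRT hRU hI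
      k a a' hd hd' ht hch'

end Pool.Agent.MVO.H52
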